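import Pool.Agent.H327R4.Pure.All3

/-!
# All ranks almost occur

Proof idea: for a positive `c ≠ 0` of rank at most `ε` and `1 = ∑ y_i^* c y_i`, the element
`g = c^(1/2) (∑ y_i h y_i^*) c^(1/2)` has the same traces as `h` and rank at most `ε`, and
`⊕_j (g - j)_+` has rank between `τ(h) - ε` and `τ(h)`; continuous affine functions on the tracial
state space are approximated by positive elements of the algebra (Hahn-Banach).
-/

set_option autoImplicit false

namespace Pool.Agent.Results.MP_d8b6c2_an.AllRanksAlmostOccur

open Pool.Agent.H327R4.Pure

universe u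

/-- in every unital simple infinite-dimensional C*-algebra, every strictly positive continuous
affine function on the tracial state space is, up to `ε`, the rank function of a positive matrix -/
theorem result :
    ∀ (A : Type u) [CStarAlgebra A] [PartialOrder A] [StarOrderedRing A],
      SimpleC A → ¬ FiniteDimensional ℂ A →
        ∀ (f : TS A → ℝ) (ε : ℝ), Continuous f → IsAff f → (∀ T, 0 < f T) → 0 < ε →
          ∃ (K : ℕ) (a : MM K A), 0 ≤ a ∧ ∀ T : TS A,
            ∃ d : ℝ, IsRank (trM T.1 (Fin K)) a d ∧ f T - ε < d ∧ d < f T := by
  intro A _ _ _ hA hinf f ε hf haff hpos hε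
  exact alm' A hA hinf f ε hf haff hpos hε

end Pool.Agent.Results.MP_d8b6c2_an.AllRanksAlmostOccur
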