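import Pool.Agent.H327R4.Pure.All3

/-!
# Strict comparison implies that all ranks occur
-/

set_option autoImplicit false

namespace Pool.Agent.Results.MP_d8b6c2_an.AllRanksOccur

open Pool.Agent.H327R4.Pure
open scoped ENNReal

universe u v

/-- in a unital simple separable infinite-dimensional C*-algebra with strict comparison (with
respect to the tracial states) every lower semicontinuous affine function `T(A) → (0,∞]` is the
rank function of a positive element of `A ⊗ K` -/
theorem result :
    ∀ (A : Type u) [CStarAlgebra A] [PartialOrder A] [StarOrderedRing A]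
      [TopologicalSpace.SeparableSpace A], SimpleC A → ¬ FiniteDimensional ℂ A → SC A →
        (∃ (S : Type u) (_ : NonUnitalCStarAlgebra S) (_ : PartialOrder S)
          (_ : StarOrderedRing S), Nonempty (Stab A S)) ∧
        ∀ (S : Type v) [NonUnitalCStarAlgebra S] [PartialOrder S] [StarOrderedRing S]
          (st : Stab A S) (f : TS A → ℝ≥0∞), LowerSemicontinuous f → IsAffE f →
            (∀ T, f T ≠ 0) → ∃ s : S, 0 ≤ s ∧ ∀ T : TS A, IsRankS st T.1 s (f T) := by
  intro A _ _ _ _ hA hinf hSC
  refine ⟨exists_stab A, ?_⟩
  intro S _ _ _ st f hf haff hpos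
  exact occ' A S st hA hinf hSC f hf haff hpos

end Pool.Agent.Results.MP_d8b6c2_an.AllRanksOccur
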